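import Pool.Agent.H94.G5T.M117
import Pool.Agent.H94.G5T.M130
import Pool.Agent.H94.G5T.M135
import Pool.Agent.H94.G5T.M165

/-!
# G3 F Pn: from the cone to the projective space

`brody_pn`: entire lift of `f` to the cone (`H17.exists_global_lift`; see `H19T/FAsmB`).  `picard_pn`: `H19T.extends_of_cone` with `D = {x | Q x = 0}`, `Ξ = {x | VanishesAt Q x}`.  `kob_pn`: as `AD.kobayashi_of_fs`
(`AD/V/KobFs`): lift of `f` on the disc of radius `1/2`, reparametrised, and multiplied by a constant so that its value at `0` is near `x.rep` (the lift `F` given in the definition has the value `v` near `x.rep`).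
`gglc_pn`: `AD.P.strongly_one`, `H22.TB.eq_of_basis` as in `H22.TB.gglc_of_sheets`; the dimension is at least `1` (for the irrelevant ideal the variety is empty).
-/

set_option autoImplicit false

open Topology Filter Metric MvPolynomial

namespace Pool.Agent.G3

open Pool.Agent.H17 (PN VanishesAt HolomorphicInto puncturedDisc)
open Pool.Agent.H62.FC (Homog)
open Pool.Agent.H17LG.Variety (FunField IsLogGeneralType)
open Pool.Agent.H17EF (projVar coneE LE mem_coneE mk_mem_projVar)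
open Pool.Agent.H36.BP (EN fs wd Sub Curve)
open Pool.Agent.H14.PP (IsCone CurveAt Tan)
open Pool.Agent.H62.EF (MN pr)
open Pool.Agent.AD (Vd Chart Charts)
open Pool.Agent.TGF (Cn Over)
open Pool.Agent.G3F

variable {N k : ℕ} {P : Ideal (MvPolynomial (Fin (N + 1)) ℂ)} {Λ : AddSubgroup (Cn (k + 1))} {u : PN N → Cn (k + 1) ⧸ Λ} {D B : Set (Cn (k + 1))}

theorem brody_pn (hP : Homog P) {Q : MvPolynomial (Fin (N + 1)) ℂ} {e : ℕ} (hQ : Q.IsHomogeneous e)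
    (h : ∀ F : ℂ → EN N, Differentiable ℂ F → (∀ z, F z ∈ coneE P) → (∃ z, eval ((LE N).symm (F z)) Q ≠ 0) → ∀ z w, ∃ c : ℂ, F z = c • F w)
    (f : ℂ → PN N) (hf : HolomorphicInto f Set.univ) (hfX : ∀ z, f z ∈ projVar P) (hne : ∃ z w, f z ≠ f w) (z : ℂ) : VanishesAt Q (f z) := by
  obtain ⟨F, hFd, hFf⟩ := Pool.Agent.H17EF.exists_lift hf
  have hFX : ∀ z, F z ∈ coneE P := fun z => by
    obtain ⟨h1, h2⟩ := hFf z
    exact (mem_coneE hP).2 ⟨h1, h2 ▸ hfX z⟩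
  obtain ⟨h1, h2⟩ := hFf z
  by_contra hQz
  have hQF : eval ((LE N).symm (F z)) Q ≠ 0 := by
    intro h0
    apply hQz
    rw [h2]
    exact (Pool.Agent.AD.P.vanishes_iff hQ (x := F z) h1).2 h0
  obtain ⟨a, b, hab⟩ := hne
  apply hab
  obtain ⟨c, hc⟩ := h F hFd hFX ⟨z, hQF⟩ a b
  obtain ⟨ha1, ha2⟩ := hFf a
  obtain ⟨hb1, hb2⟩ := hFf b
  rw [ha2, hb2, Projectivization.mk_eq_mk_iff']
  exact ⟨c, by rw [hc, map_smul]⟩

theorem picard_pn (hP : Homog P) {Q : MvPolynomial (Fin (N + 1)) ℂ} {e : ℕ} (hQ : Q.IsHomogeneous e)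
    (h : ∀ F : ℂ → EN N, Curve (coneE P) (ball 0 1 \ {0}) F → (∃ z ∈ ball (0 : ℂ) 1 \ {0}, eval ((LE N).symm (F z)) Q ≠ 0) →
      ∃ G : ℂ → EN N, AnalyticAt ℂ G 0 ∧ G 0 ≠ 0 ∧ ∀ᶠ z in 𝓝[≠] (0 : ℂ), ∃ k : ℂ, k ≠ 0 ∧ G z = k • F z)
    (f : ℂ → PN N) (hf : HolomorphicInto f puncturedDisc) (hfX : ∀ z ∈ puncturedDisc, f z ∈ projVar P) (hne : ∃ z ∈ puncturedDisc, ¬ VanishesAt Q (f z)) :
    ∃ g : ℂ → PN N, HolomorphicInto g (ball 0 1) ∧ ∀ z ∈ puncturedDisc, g z = f z := by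
  refine Pool.Agent.H19T.extends_of_cone hP (D := {x | eval ((LE N).symm x) Q = 0}) (Ξ := {x | VanishesAt Q x}) ?_ ?_ h f hf hfX hne
  · intro y hy _
    exact Pool.Agent.AD.P.vanishes_iff hQ hy
  · intro F z hF hfr
    have h1 : AnalyticAt ℂ (fun w => Pool.Agent.AD.P.fQ Q (F w)) z :=
      AnalyticAt.comp (g := Pool.Agent.AD.P.fQ Q) (f := F) (Pool.Agent.AD.P.fQ_analytic Q (F z)) hF.1
    exact h1.frequently_zero_iff_eventually_zero.1 hfr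

theorem kob_pn (hP : Homog P) {x : PN N} (hx : x ∈ projVar P)
    (h : ∃ K : ℝ, ∀ᶠ v in 𝓝 (LE N x.rep), ∀ F : ℂ → EN N, DifferentiableOn ℂ F (ball 0 1) → (∀ z ∈ ball (0 : ℂ) 1, F z ∈ coneE P) → F 0 = v → fs (F 0) (deriv F 0) ≤ K) :
    MetricPositiveAt (projVar P) x := by
  have hX := Pool.Agent.AD.isCone_coneE hP
  obtain ⟨K, hK⟩ := h
  refine ⟨2 * K * Real.sqrt (N + 1), ?_⟩
  have hK' : ∀ᶠ v in 𝓝 x.rep, ∀ F : ℂ → EN N, DifferentiableOn ℂ F (ball 0 1) → (∀ z ∈ ball (0 : ℂ) 1, F z ∈ coneE P) → F 0 = LE N v →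
      fs (F 0) (deriv F 0) ≤ K := ((LE N).continuous.tendsto x.rep).eventually hK
  filter_upwards [hK'] with v hv f F hf hfU hF hFf hF0v
  -- a lift
  obtain ⟨F₁, hF1d, hF1f⟩ := Pool.Agent.H36.BP.lift_disc hf (r := 1 / 2) (by norm_num) (by norm_num)
  have h0mem : (0 : ℂ) ∈ ball (0 : ℂ) (1 / 2) := mem_ball_self (by norm_num)
  have hhalf : ∀ z ∈ ball (0 : ℂ) 1, 2⁻¹ * z ∈ ball (0 : ℂ) (1 / 2) := by
    intro z hz
    rw [mem_ball_zero_iff] at hz ⊢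
    rw [norm_mul, norm_inv, Complex.norm_ofNat]
    linarith
  have hF1X : ∀ z ∈ ball (0 : ℂ) (1 / 2), F₁ z ∈ coneE P := by
    intro z hz
    obtain ⟨h1, h2⟩ := hF1f z hz
    have h3 := hfU z (ball_subset_ball (by norm_num) hz)
    rw [h2] at h3
    exact (mk_mem_projVar hP h1).1 h3
  have hF10 : DifferentiableAt ℂ F₁ 0 := hF1d.differentiableAt (isOpen_ball.mem_nhds h0mem)
  -- comparison of the lifts
  have hne1 : F₁ 0 ≠ 0 := hX.ne_zero (hF1X 0 h0mem)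
  obtain ⟨j, hj⟩ : ∃ j, (F₁ 0) j ≠ 0 := by
    by_contra hcon
    push Not at hcon
    exact hne1 (by ext i; exact hcon i)
  have hF1a : AnalyticAt ℂ F₁ 0 := hF1d.analyticAt (isOpen_ball.mem_nhds h0mem)
  have hc1 : AnalyticAt ℂ (fun w => F₁ w j) 0 := analyticAt_pi_iff.mp (Pool.Agent.H36.BP.analyticAt_ofLp hF1a) j
  have hc2 : AnalyticAt ℂ (fun w => F w j) 0 := analyticAt_pi_iff.mp hF j
  obtain ⟨k, hk⟩ : ∃ k : ℂ → ℂ, k = fun w => F w j / F₁ w j := ⟨_, rfl⟩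
  have hka : AnalyticAt ℂ k 0 := by rw [hk]; exact hc2.div hc1 hj
  have hrel : ∀ᶠ w in 𝓝 (0 : ℂ), (WithLp.toLp 2 (F w) : EN N) = k w • F₁ w ∧ k w ≠ 0 := by
    filter_upwards [hFf, isOpen_ball.mem_nhds h0mem, hc1.continuousAt.eventually_ne hj] with w h1 h2 h3
    obtain ⟨h4, h5⟩ := h1
    obtain ⟨h6, h7⟩ := hF1f w h2
    rw [h5, Projectivization.mk_eq_mk_iff'] at h7
    obtain ⟨a, ha⟩ := h7
    have ha' : ∀ i, a * F₁ w i = F w i := fun i => congrFun ha i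
    have hka' : k w = a := by
      rw [hk]
      simp only
      rw [← ha' j]
      field_simp
    refine ⟨?_, ?_⟩
    · rw [hka']
      ext i
      exact (ha' i).symm
    · rw [hka']
      rintro rfl
      apply h4
      funext i
      rw [← ha' i, zero_mul]
      rfl
  have hdF : deriv (fun w => (WithLp.toLp 2 (F w) : EN N)) 0 = k 0 • deriv F₁ 0 + deriv k 0 • F₁ 0 := by
    have h1 : (fun w => (WithLp.toLp 2 (F w) : EN N)) =ᶠ[𝓝 0] fun w => k w • F₁ w := hrel.mono fun w hw => hw.1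
    rw [h1.deriv_eq]
    exact (hka.differentiableAt.hasDerivAt.smul hF10.hasDerivAt).deriv
  have hdF2 : deriv (fun w => (WithLp.toLp 2 (F w) : EN N)) 0 = WithLp.toLp 2 (deriv F 0) := by
    have h1 : HasDerivAt F (deriv F 0) 0 := hF.differentiableAt.hasDerivAt
    exact ((LE N : (Fin (N + 1) → ℂ) →L[ℂ] EN N).hasFDerivAt.comp_hasDerivAt (0 : ℂ) h1).deriv
  obtain ⟨hk0, hk1⟩ := hrel.self_of_nhds
  have hF0 : (WithLp.toLp 2 (F 0) : EN N) ≠ 0 := by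
    rw [hk0]
    exact smul_ne_zero hk1 hne1
  obtain ⟨a, ha⟩ := Pool.Agent.H22.WL.dist_line (x := (WithLp.toLp 2 (F 0) : EN N)) (v := WithLp.toLp 2 (deriv F 0)) hF0
  have hfs2 : fs (WithLp.toLp 2 (F 0) : EN N) (WithLp.toLp 2 (deriv F 0)) = fs (F₁ 0) (deriv F₁ 0) := by
    rw [← hdF2, hdF, hk0, Pool.Agent.H36.BP.fs_inv hne1 _ hk1]
  -- the disc
  have hd1 : DifferentiableOn ℂ (fun z => k 0 • F₁ (2⁻¹ * z)) (ball 0 1) := by
    intro z hz
    have h1 : DifferentiableAt ℂ F₁ (2⁻¹ * z) := hF1d.differentiableAt (isOpen_ball.mem_nhds (hhalf z hz))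
    exact ((h1.comp z (differentiableAt_id.const_mul _)).const_smul (k 0)).differentiableWithinAt
  have hb := hv _ hd1 (fun z hz => hX.smul_mem _ (hF1X _ (hhalf z hz)) _ hk1) (by
    rw [mul_zero, ← hk0, ← hF0v]
    rfl)
  have hder : deriv (fun z => k 0 • F₁ (2⁻¹ * z)) 0 = k 0 • ((2⁻¹ : ℂ) • deriv F₁ 0) := by
    have h3 : HasDerivAt (fun ζ : ℂ => 2⁻¹ * ζ) (2⁻¹ : ℂ) 0 := by
      simpa using (hasDerivAt_id (0 : ℂ)).const_mul (2⁻¹ : ℂ)
    have h4 : HasDerivAt F₁ (deriv F₁ 0) (2⁻¹ * 0) := by simpa using hF10.hasDerivAt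
    exact ((h4.scomp (0 : ℂ) h3).const_smul (k 0)).deriv
  have hinv := Pool.Agent.H36.BP.fs_inv hne1 ((2⁻¹ : ℂ) • deriv F₁ 0) hk1
  have hfs1 : fs (F₁ 0) (deriv F₁ 0) ≤ 2 * K := by
    have h5 : fs (k 0 • F₁ 0) (k 0 • ((2⁻¹ : ℂ) • deriv F₁ 0)) = fs (F₁ 0) ((2⁻¹ : ℂ) • deriv F₁ 0) := by
      have h6 := hinv 0
      rwa [zero_smul, add_zero] at h6
    simp only [mul_zero] at hb
    rw [hder, h5, Pool.Agent.H36.BP.fs_smul_right, norm_inv, Complex.norm_ofNat] at hb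
    linarith
  refine ⟨a, ?_⟩
  have h1 : ‖deriv F 0 - a • F 0‖ ≤ ‖(WithLp.toLp 2 (deriv F 0) : EN N) - a • WithLp.toLp 2 (F 0)‖ :=
    Pool.Agent.H22.WL.norm_ofLp_le ((WithLp.toLp 2 (deriv F 0) : EN N) - a • WithLp.toLp 2 (F 0))
  have h2 : ‖(WithLp.toLp 2 (F 0) : EN N)‖ ≤ Real.sqrt (N + 1) * ‖F 0‖ := Pool.Agent.H14.V.norm_le_ofLp (WithLp.toLp 2 (F 0) : EN N)
  have h4 : fs (WithLp.toLp 2 (F 0) : EN N) (WithLp.toLp 2 (deriv F 0)) ≤ 2 * K := by rw [hfs2]; exact hfs1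
  have h5 : 0 ≤ 2 * K := (Pool.Agent.H36.BP.fs_nonneg _ _).trans h4
  calc ‖deriv F 0 - a • F 0‖
      ≤ ‖(WithLp.toLp 2 (deriv F 0) : EN N) - a • WithLp.toLp 2 (F 0)‖ := h1
    _ = fs (WithLp.toLp 2 (F 0) : EN N) (WithLp.toLp 2 (deriv F 0)) * ‖(WithLp.toLp 2 (F 0) : EN N)‖ := ha
    _ ≤ (2 * K) * (Real.sqrt (N + 1) * ‖F 0‖) := mul_le_mul h4 h2 (norm_nonneg _) h5
    _ = 2 * K * Real.sqrt (N + 1) * ‖F 0‖ := by ring

/-- A form which is not in the prime ideal `P` (homogeneous or not) is not `0` at some point of the variety of `P`, if the variety has dimension at least `1`. -/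
theorem exists_point_of_dim [hPp : P.IsPrime] {n : ℕ} (hdim : ∃ z : Fin (n + 1) → FunField P, IsTranscendenceBasis ℂ z)
    {Q : MvPolynomial (Fin (N + 1)) ℂ} {e : ℕ} (hQ : Q.IsHomogeneous e) (hQP : Q ∉ P) : ∃ x ∈ projVar P, ¬ VanishesAt Q x := by
  let _ : GradedAlgebra (homogeneousSubmodule (Fin (N + 1)) ℂ) := MvPolynomial.gradedAlgebra
  obtain ⟨R, hR⟩ : ∃ R : Ideal (MvPolynomial (Fin (N + 1)) ℂ), R = (P.homogeneousCore (homogeneousSubmodule (Fin (N + 1)) ℂ)).toIdeal := ⟨_, rfl⟩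
  have hRP : R ≤ P := by rw [hR]; exact Ideal.toIdeal_homogeneousCore_le _ P
  have hRp : R.IsPrime := by rw [hR]; exact Ideal.IsPrime.homogeneousCore hPp
  have hRh : Homog R := by
    intro p hp n
    have h1 : R.IsHomogeneous (homogeneousSubmodule (Fin (N + 1)) ℂ) := by
      rw [hR]
      exact (P.homogeneousCore (homogeneousSubmodule (Fin (N + 1)) ℂ)).isHomogeneous
    exact (MvPolynomial.mem_iff_homogeneousComponent_mem h1 p).1 hp n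
  obtain ⟨i, hi⟩ := Pool.Agent.H62.FC.exists_X_notMem (P := P) (r := n + 1) (by omega) hdim
  obtain ⟨x, hx, hxQ⟩ := Pool.Agent.H17EF.exists_point (P := R) hRh ⟨i, fun h => hi (hRP h)⟩ (fun h => hQP (hRP h)) hQ
  refine ⟨x, fun S hS m hm => hx S ?_ m hm, hxQ⟩
  rw [hR]
  exact Ideal.mem_homogeneousCore_of_homogeneous_of_mem ⟨m, hm⟩ hS

theorem gglc_pn [P.IsPrime] {n : ℕ} (hdim : ∃ z : Fin (n + 1) → FunField P, IsTranscendenceBasis ℂ z) {Q : MvPolynomial (Fin (N + 1)) ℂ} {e : ℕ} (hQ : Q.IsHomogeneous e) (hQP : Q ∉ P)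
    (hgt : IsLogGeneralType (K := FunField P) (k := n + 1) fun _ => False)
    (hpic : ∀ f : ℂ → PN N, HolomorphicInto f puncturedDisc → (∀ z ∈ puncturedDisc, f z ∈ projVar P) → (∃ z ∈ puncturedDisc, ¬ VanishesAt Q (f z)) →
      ∃ g : ℂ → PN N, HolomorphicInto g (ball 0 1) ∧ ∀ z ∈ puncturedDisc, g z = f z)
    (hbr : ∀ f : ℂ → PN N, HolomorphicInto f Set.univ → (∀ z, f z ∈ projVar P) → (∃ z w, f z ≠ f w) → ∀ z, VanishesAt Q (f z)) :
    Pool.Agent.H22.TB.GGLC P {x | x ∈ projVar P ∧ VanishesAt Q x} := by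
  have hcl : Pool.Agent.H17.ZariskiClosedIn (projVar P) {x | x ∈ projVar P ∧ VanishesAt Q x} := by
    refine ⟨{Q}, fun R hR => ⟨e, by rw [Set.mem_singleton_iff.1 hR]; exact hQ⟩, ?_⟩
    ext x
    simp
  have hbr' : ∀ f : ℂ → PN N, HolomorphicInto f Set.univ → (∀ z, f z ∈ projVar P) → (∃ z w, f z ≠ f w) →
      ∀ z, f z ∈ {x | x ∈ projVar P ∧ VanishesAt Q x} := fun f hf hfX hne z => ⟨hfX z, hbr f hf hfX hne z⟩
  refine ⟨hcl, ?_, ?_, ?_, hbr', ?_⟩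
  · intro heq
    obtain ⟨x, hx, hxQ⟩ := exists_point_of_dim hdim hQ hQP
    rw [← heq] at hx
    exact hxQ hx.2
  · rintro w - ⟨z', hz'⟩
    obtain ⟨z, hz⟩ := hdim
    obtain rfl := Pool.Agent.H22.TB.eq_of_basis hz hz'
    exact hgt
  · rintro f hf hfX ⟨z, hz, hfz⟩
    exact hpic f hf hfX ⟨z, hz, fun hmem => hfz ⟨hfX z hz, hmem⟩⟩
  · intro R _ hR hPR hsub hz
    exact Pool.Agent.AD.P.strongly_one hcl hbr' R hR hPR hsub hz

end Pool.Agent.G3
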